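import Pool.Agent.N139.WS.Stm

/-!
# Project WS (helper139), part GRP (helper395): facts about the group
-/

set_option autoImplicit false

namespace Pool.Agent.N395.WS

open Filter Topology Pool.Agent.N139.WS

/-- truncation of a sequence -/
noncomputable def fl (n : ℕ) : VV →+ VV := Finsupp.filterAddHom fun i => i < n

lemma fl_apply (n : ℕ) (x : VV) (i : ℕ) : fl n x i = if i < n then x i else 0 := by
  show Finsupp.filter (fun i => i < n) x i = _
  rw [Finsupp.filter_apply]

lemma fl_mul (n : ℕ) (x y : VV) : fl n (x * y) = fl n x * fl n y := by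
  ext i
  rw [Finsupp.mul_apply, fl_apply, fl_apply, fl_apply, Finsupp.mul_apply]
  split_ifs
  · rfl
  · rw [mul_zero]

lemma fl_fl (n m : ℕ) (h : n ≤ m) (x : VV) : fl m (fl n x) = fl n x := by
  ext i
  rw [fl_apply, fl_apply]
  by_cases h1 : i < m
  · rw [if_pos h1]
  · rw [if_neg h1, if_neg (by omega)]

lemma fl_eq (x : VV) : ∃ n, ∀ m, n ≤ m → fl m x = x := by
  refine ⟨x.support.sup id + 1, fun m hm => ?_⟩
  ext i
  rw [fl_apply]
  split_ifs with h
  · rfl
  · by_contra h1
    have h2 : i ∈ x.support := Finsupp.mem_support_iff.mpr (Ne.symm h1)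
    have h3 : i ≤ x.support.sup id := Finset.le_sup (f := id) h2
    omega

lemma mem_HH (g : WG) : g ∈ HH ↔ g.e = 0 := by
  show g ∈ eh.ker ↔ _
  rw [MonoidHom.mem_ker]
  exact Iff.rfl

/-- truncation as an endomorphism -/
noncomputable def ph (n : ℕ) : HH →* HH where
  toFun g := ⟨⟨fl n g.1.x, fl n g.1.y, fl n g.1.z, fl n g.1.b, 0⟩, (mem_HH _).mpr rfl⟩
  map_one' := by
    apply Subtype.ext
    ext1
    · exact map_zero _
    · exact map_zero _
    · exact map_zero _
    · exact map_zero _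
    · rfl
  map_mul' g h := by
    have he : g.1.e = 0 := (mem_HH _).mp g.2
    apply Subtype.ext
    ext1
    · show fl n (g.1.x + h.1.x) = fl n g.1.x + fl n h.1.x
      exact map_add _ _ _
    · show fl n (g.1.y + h.1.y) = fl n g.1.y + fl n h.1.y
      exact map_add _ _ _
    · show fl n (g.1.z + h.1.z + g.1.x * h.1.y + g.1.e • TT h.1.b) =
        fl n g.1.z + fl n h.1.z + fl n g.1.x * fl n h.1.y + (0 : ZMod 2) • TT (fl n h.1.b)
      rw [he, zero_smul, zero_smul, add_zero, add_zero, map_add, map_add, fl_mul]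
    · show fl n (g.1.b + h.1.b) = fl n g.1.b + fl n h.1.b
      exact map_add _ _ _
    · show (0 : ZMod 2) = 0 + 0
      rw [add_zero]

lemma ph_ph (n m : ℕ) (h : n ≤ m) (g : HH) : ph m (ph n g) = ph n g := by
  apply Subtype.ext
  ext1
  · exact fl_fl n m h _
  · exact fl_fl n m h _
  · exact fl_fl n m h _
  · exact fl_fl n m h _
  · rfl

lemma ph_eq (g : HH) : ∃ n, ph n g = g := by
  obtain ⟨n1, h1⟩ := fl_eq g.1.x
  obtain ⟨n2, h2⟩ := fl_eq g.1.y
  obtain ⟨n3, h3⟩ := fl_eq g.1.z
  obtain ⟨n4, h4⟩ := fl_eq g.1.b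
  refine ⟨max (max n1 n2) (max n3 n4), ?_⟩
  apply Subtype.ext
  ext1
  · exact h1 _ ((le_max_left _ _).trans (le_max_left _ _))
  · exact h2 _ ((le_max_right _ _).trans (le_max_left _ _))
  · exact h3 _ ((le_max_left _ _).trans (le_max_right _ _))
  · exact h4 _ ((le_max_right _ _).trans (le_max_right _ _))
  · exact ((mem_HH _).mp g.2).symm

lemma finite_range (n : ℕ) : Finite (ph n).range := by
  let F : (ph n).range → (Fin n → ZMod 2) × (Fin n → ZMod 2) × (Fin n → ZMod 2) ×
      (Fin n → ZMod 2) := fun g =>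
    (fun i => g.1.1.x i, fun i => g.1.1.y i, fun i => g.1.1.z i, fun i => g.1.1.b i)
  have hext : ∀ x y : VV, (∀ i : Fin n, fl n x i = fl n y i) → fl n x = fl n y := by
    intro x y h
    ext i
    by_cases hi : i < n
    · exact h ⟨i, hi⟩
    · rw [fl_apply, fl_apply, if_neg hi, if_neg hi]
  refine Finite.of_injective F ?_
  rintro ⟨_, g, rfl⟩ ⟨_, h, rfl⟩ hgh
  have h1 := congrArg (fun t => t.1) hgh
  have h2 := congrArg (fun t => t.2.1) hgh
  have h3 := congrArg (fun t => t.2.2.1) hgh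
  have h4 := congrArg (fun t => t.2.2.2) hgh
  apply Subtype.ext
  apply Subtype.ext
  ext1
  · exact hext _ _ fun i => congrFun h1 i
  · exact hext _ _ fun i => congrFun h2 i
  · exact hext _ _ fun i => congrFun h3 i
  · exact hext _ _ fun i => congrFun h4 i
  · rfl

theorem t_GRP : S_GRP := by
  refine ⟨?_, ?_, fun n => (ph n).range, fun n => (ph n).rangeRestrict, finite_range, ?_, ?_, ?_⟩
  · have hinj : Function.Injective (fun g : WG => (g.x, g.y, g.z, g.b, g.e)) := by
      intro g h hgh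
      simp only [Prod.mk.injEq] at hgh
      ext1
      · exact hgh.1
      · exact hgh.2.1
      · exact hgh.2.2.1
      · exact hgh.2.2.2.1
      · exact hgh.2.2.2.2
    exact hinj.countable
  · show eh.ker.index = 2
    rw [Subgroup.index_ker]
    have hs : Function.Surjective eh := fun m => ⟨⟨0, 0, 0, 0, Multiplicative.toAdd m⟩, rfl⟩
    rw [MonoidHom.range_eq_top.mpr hs, Subgroup.card_top, Nat.card_eq_fintype_card]
    rfl
  · rintro n _ ⟨g, rfl⟩
    exact ⟨ph n g, ph_ph n (n + 1) (Nat.le_succ n) g⟩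
  · intro g
    obtain ⟨n, hn⟩ := ph_eq g
    exact ⟨n, g, hn⟩
  · rintro n ⟨_, g, rfl⟩
    exact Subtype.ext (ph_ph n n le_rfl g)

end Pool.Agent.N395.WS
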